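import Pool.Agent.W46.HD.Stm

/-! # Project HD: entropy tools -/

set_option autoImplicit false

open Finset
open scoped Classical

namespace Pool.Agent.W85.HD

open Pool.Agent.W904.AK Pool.Agent.W46.HD

section

variable {Θ : Type} [Fintype Θ] {α β : Type} {q : Θ → ℝ}

/-- The values on the support. -/
noncomputable def vals (q : Θ → ℝ) (k : Θ → α) : Finset α :=
  (univ.filter fun x => q x ≠ 0).image k

lemma mem_vals {k : Θ → α} {x : Θ} (hx : q x ≠ 0) : k x ∈ vals q k :=
  mem_image_of_mem k (mem_filter.2 ⟨mem_univ x, hx⟩)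

lemma mem_vals_iff {k : Θ → α} {a : α} : a ∈ vals q k ↔ ∃ x, q x ≠ 0 ∧ k x = a := by
  constructor
  · intro h
    obtain ⟨x, hx, h1⟩ := mem_image.1 h
    exact ⟨x, (mem_filter.1 hx).2, h1⟩
  · rintro ⟨x, hx, rfl⟩
    exact mem_vals hx

lemma gibbs' (hq : IsLaw q) (k : Θ → α) (m : α → ℝ) (hm : ∀ x, q x ≠ 0 → 0 < m (k x))
    (hS : ∑ a ∈ vals q k, m a ≤ 1) : H q k ≤ ∑ x, q x * -Real.log (m (k x)) := by
  have e1 : ∀ x, q x * -Real.log (im q k (k x)) ≤
      q x * -Real.log (m (k x)) + (q x * (m (k x) / im q k (k x)) - q x) := by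
    intro x
    by_cases hx : q x = 0
    · simp [hx]
    have h1 := im_pos hq k hx
    have h2 := Real.log_le_sub_one_of_pos (div_pos (hm x hx) h1)
    rw [Real.log_div (hm x hx).ne' h1.ne'] at h2
    have h3 := mul_le_mul_of_nonneg_left h2 (hq.nonneg x)
    nlinarith [h3]
  have e2 : ∑ x, q x * (m (k x) / im q k (k x)) ≤ 1 := by
    have e3 : ∀ x, q x * (m (k x) / im q k (k x)) =
        ∑ a ∈ vals q k, (if k x = a then q x else 0) * (m a / im q k a) := by
      intro x
      by_cases hx : q x = 0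
      · simp [hx]
      rw [Finset.sum_eq_single_of_mem (k x) (mem_vals hx)]
      · simp
      · intro a _ ha
        rw [if_neg (Ne.symm ha), zero_mul]
    rw [Finset.sum_congr rfl fun x _ => e3 x, Finset.sum_comm]
    refine le_trans (Finset.sum_le_sum fun a ha => ?_) hS
    obtain ⟨x, hx, rfl⟩ := mem_image.1 ha
    have hx' := (mem_filter.1 hx).2
    rw [← Finset.sum_mul, ← im_eq_sum, mul_div_cancel₀ _ (im_pos hq k hx').ne']
  have h5 := Finset.sum_le_sum fun x (_ : x ∈ Finset.univ) => e1 x
  rw [Finset.sum_add_distrib, Finset.sum_sub_distrib, hq.total] at h5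
  unfold H
  linarith

end

theorem GIBBS : S_GIBBS := by
  intro Θ _ α q f m hq hm hS
  exact gibbs' hq f m (fun x _ => hm _) (hS _)

theorem COST : S_COST := by
  intro Θ _ α β q f g L hq hT
  set V : α → Finset β := fun a => (univ.filter fun y => q y ≠ 0 ∧ f y = a).image g with hV
  have hVpos : ∀ x, q x ≠ 0 → 0 < ((V (f x)).card : ℝ) := by
    intro x hx
    have h : g x ∈ V (f x) := mem_image_of_mem g (mem_filter.2 ⟨mem_univ x, hx, rfl⟩)
    exact_mod_cast Finset.card_pos.2 ⟨_, h⟩
  have h1 := gibbs' hq (fun x => (f x, g x)) (fun s : α × β => im q f s.1 / (V s.1).card)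
    (fun x hx => div_pos (im_pos hq f hx) (hVpos x hx)) (by
      rw [← Finset.sum_fiberwise_of_maps_to (s := vals q fun x => (f x, g x)) (t := vals q f)
        (g := Prod.fst) (by
          intro s hs
          obtain ⟨x, hx, rfl⟩ := mem_vals_iff.1 hs
          exact mem_vals hx)]
      have e1 : ∀ a ∈ vals q f, ∑ s ∈ (vals q fun x => (f x, g x)).filter (fun s => s.1 = a),
          im q f s.1 / (V s.1).card ≤ im q f a := by
        intro a ha
        obtain ⟨x, hx', rfl⟩ := mem_vals_iff.1 ha
        rw [Finset.sum_congr rfl (g := fun _ => im q f (f x) / (V (f x)).card) (by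
          intro s hs
          rw [(mem_filter.1 hs).2]), Finset.sum_const, nsmul_eq_mul]
        have h2 : ((vals q fun x => (f x, g x)).filter (fun s => s.1 = f x)).card ≤
            (V (f x)).card := by
          refine Finset.card_le_card_of_injOn Prod.snd ?_ ?_
          · intro s hs
            rw [mem_coe, mem_filter] at hs
            obtain ⟨y, hy, rfl⟩ := mem_vals_iff.1 hs.1
            exact mem_image_of_mem g (mem_filter.2 ⟨mem_univ y, hy, hs.2⟩)
          · intro s hs s' hs' h
            rw [mem_coe, mem_filter] at hs hs'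
            exact Prod.ext (hs.2.trans hs'.2.symm) h
        have h3 : (((vals q fun x => (f x, g x)).filter (fun s => s.1 = f x)).card : ℝ) ≤
            (V (f x)).card := by exact_mod_cast h2
        have h4 := hVpos x hx'
        calc _ ≤ ((V (f x)).card : ℝ) * (im q f (f x) / (V (f x)).card) :=
              mul_le_mul_of_nonneg_right h3 (div_nonneg (im_nonneg hq f _) h4.le)
          _ = im q f (f x) := by field_simp
      refine (Finset.sum_le_sum e1).trans ?_
      unfold im
      rw [Finset.sum_comm, ← hq.total]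
      refine Finset.sum_le_sum fun x _ => ?_
      rw [Finset.sum_ite_eq]
      split_ifs
      · exact le_rfl
      · exact hq.nonneg x)
  refine h1.trans ?_
  unfold H
  rw [← Finset.sum_add_distrib]
  refine Finset.sum_le_sum fun x _ => ?_
  by_cases hx : q x = 0
  · simp [hx]
  rw [← mul_add]
  refine mul_le_mul_of_nonneg_left ?_ (hq.nonneg x)
  rw [Real.log_div (im_pos hq f hx).ne' (hVpos x hx).ne']
  obtain ⟨T, hT1, hT2⟩ := hT x hx
  have h2 : V (f x) ⊆ T := by
    intro b hb
    obtain ⟨y, hy, rfl⟩ := mem_image.1 hb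
    have hy' := (mem_filter.1 hy).2
    exact hT1 y hy'.1 hy'.2
  have h3 : Real.log ((V (f x)).card : ℝ) ≤ Real.log (T.card : ℝ) :=
    Real.log_le_log (hVpos x hx) (by exact_mod_cast Finset.card_le_card h2)
  linarith

lemma sum_Icc_le (n : ℕ) (hn : 1 ≤ n) (M : ℕ) :
    ∑ k ∈ Finset.Icc (-(M : ℤ)) M, 1 / (1 + |(k : ℝ)| / n) ^ 2 ≤
      1 + 2 * n * (1 - 1 / (1 + (M : ℝ) / n)) := by
  have hn0 : (0 : ℝ) < n := by exact_mod_cast hn
  induction M with
  | zero => simp
  | succ M ih =>
    have e : Finset.Icc (-((M + 1 : ℕ) : ℤ)) ((M + 1 : ℕ) : ℤ) =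
        insert (-((M + 1 : ℕ) : ℤ)) (insert ((M + 1 : ℕ) : ℤ) (Finset.Icc (-(M : ℤ)) M)) := by
      ext k
      simp only [Finset.mem_insert, Finset.mem_Icc]
      push_cast
      omega
    rw [e, Finset.sum_insert (by
        simp only [Finset.mem_insert, Finset.mem_Icc]
        push_cast
        omega),
      Finset.sum_insert (by
        simp only [Finset.mem_Icc]
        push_cast
        omega)]
    have e1 : |(((-((M + 1 : ℕ) : ℤ)) : ℤ) : ℝ)| = (M : ℝ) + 1 := by
      push_cast
      rw [abs_neg, abs_of_pos (by positivity)]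
    have e2 : |((((M + 1 : ℕ) : ℤ)) : ℝ)| = (M : ℝ) + 1 := by
      push_cast
      rw [abs_of_pos (by positivity)]
    rw [e1, e2]
    have h1 : (1 : ℝ) / (1 + ((M : ℝ) + 1) / n) ^ 2 ≤
        n * (1 / (1 + (M : ℝ) / n) - 1 / (1 + ((M : ℝ) + 1) / n)) := by
      have e3 : n * (1 / (1 + (M : ℝ) / n) - 1 / (1 + ((M : ℝ) + 1) / n)) =
          1 / ((1 + (M : ℝ) / n) * (1 + ((M : ℝ) + 1) / n)) := by
        have h5 : (1 + (M : ℝ) / n) ≠ 0 := by positivity
        have h6 : (1 + ((M : ℝ) + 1) / n) ≠ 0 := by positivity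
        have h7 : (n : ℝ) + M ≠ 0 := by positivity
        have h8 : (n : ℝ) + (M + 1) ≠ 0 := by positivity
        field_simp
        ring
      rw [e3, pow_two]
      apply one_div_le_one_div_of_le (by positivity)
      apply mul_le_mul_of_nonneg_right _ (by positivity)
      have : (M : ℝ) / n ≤ ((M : ℝ) + 1) / n := by
        apply div_le_div_of_nonneg_right _ hn0.le
        linarith
      linarith
    push_cast
    linarith

theorem INT : S_INT := by
  intro Θ _ q f n hq hn
  have hn0 : (0 : ℝ) < n := by exact_mod_cast hn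
  have hn1 : (1 : ℝ) ≤ n := by exact_mod_cast hn
  have hpos : ∀ k : ℤ, 0 < 1 + |(k : ℝ)| / n := fun k => by positivity
  have h1 := GIBBS Θ ℤ q f (fun k => 1 / (3 * n) * (1 / (1 + |(k : ℝ)| / n) ^ 2)) hq
    (fun k => by have := hpos k; positivity) (by
      intro S
      rw [← Finset.mul_sum]
      obtain ⟨M, hM⟩ : ∃ M : ℕ, S ⊆ Finset.Icc (-(M : ℤ)) M := by
        refine ⟨S.sup Int.natAbs, fun k hk => ?_⟩
        have : k.natAbs ≤ S.sup Int.natAbs := Finset.le_sup hk
        rw [Finset.mem_Icc]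
        omega
      have h2 := (Finset.sum_le_sum_of_subset_of_nonneg hM (fun k _ _ => by
        have := hpos k
        positivity : ∀ k ∈ Finset.Icc (-(M : ℤ)) M, k ∉ S →
          0 ≤ 1 / (1 + |(k : ℝ)| / n) ^ 2)).trans (sum_Icc_le n hn M)
      have h3 : (0 : ℝ) < 1 / (1 + (M : ℝ) / n) := by positivity
      rw [one_div_mul_eq_div, div_le_one (by positivity)]
      nlinarith)
  refine h1.trans ?_
  have h2 : ∀ x, q x * -Real.log (1 / (3 * n) * (1 / (1 + |(f x : ℝ)| / n) ^ 2)) =
      q x * (Real.log 3 + Real.log n) + 2 * (q x * Real.log (1 + |(f x : ℝ)| / n)) := by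
    intro x
    have h3 := hpos (f x)
    rw [Real.log_mul (by positivity) (by positivity), one_div, one_div, Real.log_inv,
      Real.log_inv, Real.log_mul (by norm_num) hn0.ne', Real.log_pow]
    push_cast
    ring
  rw [Finset.sum_congr rfl fun x _ => h2 x, Finset.sum_add_distrib, ← Finset.sum_mul, hq.total,
    ← Finset.mul_sum]
  have h3 : Real.log 3 ≤ 3 - 1 := Real.log_le_sub_one_of_pos (by norm_num)
  linarith

end Pool.Agent.W85.HD
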